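import Pool.Agent.X242.DR6

/-!
# Stark's conjecture for ATR fields and the bias of ideal classes

Let `k` be an ATR field, `𝔣` an ideal and `H = k^+(𝔣)` the narrow ray class field, with the Artin map `A` and the
Galois group `G` of order `h`. For `g ∈ G` let

`B_g(T) = ∑_𝔞 (h [A 𝔞 = g] - 1) / Γ(1 + log N(𝔞) / T)`, `T > 0`,

where `𝔞` runs through the ideals prime to `𝔣`: the absolutely convergent weighted count of `h` times the ideals in the
class `g` minus all the ideals. Then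

`T B_g(T) = -γ_E h ζ_𝔣'(g, 0) + O(1 / T)` with Euler's constant `γ_E`.

So the derivatives at `0` of the partial zeta functions are the limits of the bias of the classes, and condition 1 of
the conjecture, for a unit `u` of `H`, says that `T B_g(T) → (γ_E h / e) log |u^g|²` for all `g`. The conjecture for `k`,
`𝔣` becomes a statement about counting ideals in classes, in which no zeta function appears.

Known facts on the partial zeta functions are hypotheses (`IsZetaSystem`): they are sums over the classes for `Re s > 1`,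
continue to functions which are holomorphic at all the points of `[0, 1]` but for a pole at `1` with the same residue
for all classes, and vanish at `0`, and the sum of their derivatives at `0` is `0` (for `k` with `r` real places the zeta
function of `k` without the Euler factors of the primes dividing `𝔣` has the order `r + #{𝔭 | 𝔣}` at `0`; this is `≥ 2`
as the case `r = 1`, `𝔣 = 1` is excluded).
-/

set_option autoImplicit false

namespace Pool.Agent.Results.MP_29cb78_nt.ClassBiasSums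

open Filter Topology NumberField IsDedekindDomain Pool.Agent.X242.DR Asymptotics

section

variable {k H : Type} [Field k] [NumberField k] [Field H] [NumberField H] [Algebra k H]

/-- `k` is an ATR field, and `𝔣 ≠ 0`, `𝔣 ≠ 𝓞 k` if `k` has only one real place. -/
structure IsATR (𝔣 : Ideal (𝓞 k)) : Prop where
  complex : InfinitePlace.nrComplexPlaces k = 1
  real : 1 ≤ InfinitePlace.nrRealPlaces k
  ne_zero : 𝔣 ≠ ⊥
  proper : InfinitePlace.nrRealPlaces k = 1 → 𝔣 ≠ ⊤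

/-- `𝔞` is nonzero and prime to `𝔣`. -/
def PrimeTo (𝔣 𝔞 : Ideal (𝓞 k)) : Prop := 𝔞 ≠ ⊥ ∧ 𝔞 ⊔ 𝔣 = ⊤

/-- `𝔞` and `𝔟` have the same narrow ray class modulo `𝔣`: `α 𝔞 = β 𝔟` with nonzero integers `α ≡ β ≡ 1` modulo `𝔣`
such that `β / α` is positive at all real places. -/
def SameClass (𝔣 𝔞 𝔟 : Ideal (𝓞 k)) : Prop :=
  ∃ α β : 𝓞 k, α ≠ 0 ∧ β ≠ 0 ∧ α - 1 ∈ 𝔣 ∧ β - 1 ∈ 𝔣 ∧
    (∀ σ : k →+* ℝ, 0 < σ (α : k) * σ (β : k)) ∧ Ideal.span {α} * 𝔞 = Ideal.span {β} * 𝔟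

/-- `H` is the narrow ray class field of `k` modulo `𝔣` with the Artin map `A`: multiplicative and onto, with value the
Frobenius automorphism at the primes not dividing `𝔣`, and `A 𝔞 = A 𝔟` exactly for ideals of the same class. -/
structure IsRayClassField (𝔣 : Ideal (𝓞 k)) (A : Ideal (𝓞 k) → (H ≃ₐ[k] H)) : Prop where
  galois : IsGalois k H
  mul : ∀ 𝔞 𝔟 : Ideal (𝓞 k), PrimeTo 𝔣 𝔞 → PrimeTo 𝔣 𝔟 → A (𝔞 * 𝔟) = A 𝔞 * A 𝔟
  onto : ∀ g : H ≃ₐ[k] H, ∃ 𝔞 : Ideal (𝓞 k), PrimeTo 𝔣 𝔞 ∧ A 𝔞 = g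
  frob : ∀ 𝔭 : HeightOneSpectrum (𝓞 k), PrimeTo 𝔣 𝔭.asIdeal → ∀ 𝔓 : HeightOneSpectrum (𝓞 H),
    𝔓.asIdeal.comap (algebraMap (𝓞 k) (𝓞 H)) = 𝔭.asIdeal → ∀ x y : 𝓞 H,
      (y : H) = A 𝔭.asIdeal (x : H) → y - x ^ (Ideal.absNorm 𝔭.asIdeal) ∈ 𝔓.asIdeal
  ker : ∀ 𝔞 𝔟 : Ideal (𝓞 k), PrimeTo 𝔣 𝔞 → PrimeTo 𝔣 𝔟 → (A 𝔞 = A 𝔟 ↔ SameClass 𝔣 𝔞 𝔟)

/-- The partial zeta functions `ζ g`, with the known facts described above. -/
structure IsZetaSystem (𝔣 : Ideal (𝓞 k)) (A : Ideal (𝓞 k) → (H ≃ₐ[k] H))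
    (ζ : (H ≃ₐ[k] H) → ℂ → ℂ) : Prop where
  series : ∀ (g : H ≃ₐ[k] H) (s : ℂ), 1 < s.re →
    HasSum (fun 𝔞 : {𝔞 : Ideal (𝓞 k) // PrimeTo 𝔣 𝔞 ∧ A 𝔞 = g} =>
      ((Ideal.absNorm 𝔞.1 : ℕ) : ℂ) ^ (-s)) (ζ g s)
  cont : ∃ (κ : ℂ) (φ : (H ≃ₐ[k] H) → ℂ → ℂ), (∀ (g : H ≃ₐ[k] H) (s : ℂ), s ≠ 1 →
    ζ g s = κ / (s - 1) + φ g s) ∧ ∀ (g : H ≃ₐ[k] H) (x : ℝ), 0 ≤ x → x ≤ 1 →
      AnalyticAt ℂ (φ g) (x : ℂ)
  zero : ∀ g : H ≃ₐ[k] H, ζ g 0 = 0
  total : ∑ᶠ g : H ≃ₐ[k] H, deriv (ζ g) 0 = 0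

open Classical in
/-- `(h [A 𝔞 = g] - 1) / Γ(1 + log N(𝔞) / T)`, `h = [H : k]` -/
noncomputable def biasTerm (A : Ideal (𝓞 k) → (H ≃ₐ[k] H)) (g : H ≃ₐ[k] H) (T : ℝ)
    (𝔞 : Ideal (𝓞 k)) : ℝ :=
  ((Module.finrank k H : ℝ) * (if A 𝔞 = g then 1 else 0) - 1) /
    Real.Gamma (1 + Real.log (Ideal.absNorm 𝔞 : ℕ) / T)

/-- `B_g(T)` -/
noncomputable def bias (𝔣 : Ideal (𝓞 k)) (A : Ideal (𝓞 k) → (H ≃ₐ[k] H)) (g : H ≃ₐ[k] H)
    (T : ℝ) : ℝ :=
  ∑' 𝔞 : {𝔞 : Ideal (𝓞 k) // PrimeTo 𝔣 𝔞}, biasTerm A g T 𝔞.1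

variable (k) in
/-- Condition 3: `H(u^{1/e})/k` is abelian, `e` the number of roots of unity in `H`: for a root `η` of `X ^ e = u` in an
algebraic closure `H(η)/k` is Galois with abelian Galois group. -/
def AbelianRoot (u : H) : Prop :=
  ∃ η : AlgebraicClosure H, η ^ (NumberField.Units.torsionOrder H) = algebraMap H _ u ∧
    IsGalois k (IntermediateField.adjoin k
      (Set.range (algebraMap H (AlgebraicClosure H)) ∪ {η})) ∧
    ∀ σ τ : (IntermediateField.adjoin k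
      (Set.range (algebraMap H (AlgebraicClosure H)) ∪ {η})) ≃ₐ[k] (IntermediateField.adjoin k
      (Set.range (algebraMap H (AlgebraicClosure H)) ∪ {η})), σ * τ = τ * σ

variable (k) in
/-- Condition 2: all the embeddings above the real embeddings of `k` map `u` to the unit circle. -/
def OnCircles (u : H) : Prop :=
  ∀ φ : H →+* ℂ, ComplexEmbedding.IsReal (φ.comp (algebraMap k H)) → ‖φ u‖ = 1

/-- Condition 1: `ζ_𝔣'(g, 0) = -(1/e) log |u^g|²` for all `g`, for the embedding `ρ` of `H`. -/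
def StarkIdentities (ρ : H →+* ℂ) (ζ : (H ≃ₐ[k] H) → ℂ → ℂ) (u : H) : Prop :=
  ∀ g : H ≃ₐ[k] H, deriv (ζ g) 0 =
    ((-(1 / (NumberField.Units.torsionOrder H : ℝ)) * Real.log (‖ρ (g u)‖ ^ 2) : ℝ) : ℂ)

/-- `T B_g(T) → (γ_E h / e) log |u^g|²` for all `g` -/
def BiasIdentities (𝔣 : Ideal (𝓞 k)) (A : Ideal (𝓞 k) → (H ≃ₐ[k] H)) (ρ : H →+* ℂ) (u : H) : Prop :=
  ∀ g : H ≃ₐ[k] H, Tendsto (fun T : ℝ => T * bias 𝔣 A g T) atTop
    (𝓝 (Real.eulerMascheroniConstant * (Module.finrank k H : ℝ) /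
      (NumberField.Units.torsionOrder H : ℝ) * Real.log (‖ρ (g u)‖ ^ 2)))

theorem gal_finite : Finite (H ≃ₐ[k] H) := by
  have : Module.Finite k H := Module.Finite.of_restrictScalars_finite ℚ k H
  infer_instance

open Classical in
/-- the coefficients -/
noncomputable def cf (𝔣 : Ideal (𝓞 k)) (A : Ideal (𝓞 k) → (H ≃ₐ[k] H)) (g : H ≃ₐ[k] H)
    (𝔞 : Ideal (𝓞 k)) : ℝ :=
  if PrimeTo 𝔣 𝔞 then (Module.finrank k H : ℝ) * (if A 𝔞 = g then 1 else 0) - 1 else 0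

/-- The main estimate. -/
theorem main (𝔣 : Ideal (𝓞 k)) (A : Ideal (𝓞 k) → (H ≃ₐ[k] H)) (hA : IsRayClassField 𝔣 A)
    (ζ : (H ≃ₐ[k] H) → ℂ → ℂ) (hζ : IsZetaSystem 𝔣 A ζ) (g : H ≃ₐ[k] H) :
    (∀ T : ℝ, 0 < T → Summable fun 𝔞 : {𝔞 : Ideal (𝓞 k) // PrimeTo 𝔣 𝔞} => |biasTerm A g T 𝔞.1|) ∧
    (deriv (ζ g) 0).im = 0 ∧
    (fun T : ℝ => T * bias 𝔣 A g T + Real.eulerMascheroniConstant * (Module.finrank k H : ℝ) *
      (deriv (ζ g) 0).re) =O[atTop] (fun T : ℝ => 1 / T) := by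
  classical
  have := gal_finite (k := k) (H := H)
  have := Fintype.ofFinite (H ≃ₐ[k] H)
  have hgal := hA.galois
  have hfd : FiniteDimensional k H := Module.Finite.of_restrictScalars_finite ℚ k H
  have hcard : (Fintype.card (H ≃ₐ[k] H) : ℕ) = Module.finrank k H := by
    rw [← Nat.card_eq_fintype_card]
    exact IsGalois.card_aut_eq_finrank k H
  obtain ⟨κ, φ, hφ, hφa⟩ := hζ.cont
  set h : ℕ := Module.finrank k H with hh
  have hpos : 0 < h := Module.finrank_pos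
  set Φ : ℂ → ℂ := fun s => (h : ℂ) * φ g s - ∑ c, φ c s with hΦ
  have hΦζ : ∀ s : ℂ, s ≠ 1 → Φ s = (h : ℂ) * ζ g s - ∑ c, ζ c s := by
    intro s hs
    rw [hΦ]
    simp only
    rw [hφ g s hs, Finset.sum_congr rfl fun c _ => hφ c s hs, Finset.sum_add_distrib,
      Finset.sum_const, Finset.card_univ, hcard, nsmul_eq_mul]
    ring
  have hind : ∀ (c : H ≃ₐ[k] H) (s : ℂ), 1 < s.re → HasSum (fun 𝔞 : Ideal (𝓞 k) =>
      (if PrimeTo 𝔣 𝔞 ∧ A 𝔞 = c then (1 : ℂ) else 0) * ((Ideal.absNorm 𝔞 : ℕ) : ℂ) ^ (-s))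
      (ζ c s) := by
    intro c s hs
    have h1 := (hasSum_subtype_iff_indicator (s := {𝔞 : Ideal (𝓞 k) | PrimeTo 𝔣 𝔞 ∧ A 𝔞 = c})
      (f := fun 𝔞 : Ideal (𝓞 k) => ((Ideal.absNorm 𝔞 : ℕ) : ℂ) ^ (-s))).1 (hζ.series c s hs)
    refine h1.congr_fun fun 𝔞 => ?_
    by_cases h2 : PrimeTo 𝔣 𝔞 ∧ A 𝔞 = c
    · rw [Set.indicator_of_mem (show 𝔞 ∈ {𝔞 | PrimeTo 𝔣 𝔞 ∧ A 𝔞 = c} from h2), if_pos h2, one_mul]
    · rw [Set.indicator_of_notMem (show 𝔞 ∉ {𝔞 | PrimeTo 𝔣 𝔞 ∧ A 𝔞 = c} from h2), if_neg h2,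
        zero_mul]
  have heq : ∀ s : ℂ, 1 < s.re → HasSum (fun 𝔞 : Ideal (𝓞 k) =>
      (cf 𝔣 A g 𝔞 : ℂ) * ((Ideal.absNorm 𝔞 : ℕ) : ℂ) ^ (-s)) (Φ s) := by
    intro s hs
    have hs1 : s ≠ 1 := by
      rintro rfl
      simp at hs
    rw [hΦζ s hs1]
    have h1 := ((hind g s hs).mul_left (h : ℂ)).sub
      (hasSum_sum (s := Finset.univ) fun c _ => hind c s hs)
    refine h1.congr_fun fun 𝔞 => ?_
    rw [← Finset.sum_mul]
    unfold cf
    by_cases h2 : PrimeTo 𝔣 𝔞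
    · simp only [h2, true_and, if_true]
      rw [Finset.sum_ite_eq Finset.univ (A 𝔞) fun _ => (1 : ℂ), if_pos (Finset.mem_univ _)]
      split_ifs
      · push_cast
        ring
      · push_cast
        ring
    · simp [h2]
  have hbound : ∀ 𝔞 : Ideal (𝓞 k), |cf 𝔣 A g 𝔞| ≤ (h : ℝ) + 1 := by
    intro 𝔞
    have h0 : (0 : ℝ) ≤ h := Nat.cast_nonneg _
    unfold cf
    split_ifs
    · rw [abs_le]
      constructor <;> linarith
    · rw [abs_le]
      constructor <;> linarith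
    · rw [abs_zero]
      linarith
  have hbot : cf 𝔣 A g ⊥ = 0 := by
    unfold cf
    rw [if_neg]
    intro h2
    exact h2.1 rfl
  have hol : ∀ x : ℝ, 0 ≤ x → x ≤ 1 → AnalyticAt ℂ Φ (x : ℂ) := by
    intro x h0 h1
    refine (analyticAt_const.fun_mul (hφa g x h0 h1)).fun_sub ?_
    exact Finset.analyticAt_fun_sum _ fun c _ => hφa c x h0 h1
  have D := fdata_ideals hbound hbot hol heq
  have hbias : ∀ T : ℝ, bias 𝔣 A g T = Pool.Agent.W189.ML.mean (lgN (K := k)) (cf 𝔣 A g) T := by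
    intro T
    unfold bias Pool.Agent.W189.ML.mean
    have e1 := tsum_subtype {𝔞 : Ideal (𝓞 k) | PrimeTo 𝔣 𝔞} (biasTerm A g T)
    refine e1.trans (tsum_congr fun 𝔞 => ?_)
    by_cases h2 : PrimeTo 𝔣 𝔞
    · rw [Set.indicator_of_mem (show 𝔞 ∈ {𝔞 | PrimeTo 𝔣 𝔞} from h2)]
      unfold biasTerm cf Pool.Agent.W189.ML.om lgN
      rw [if_pos h2, div_eq_mul_inv]
    · rw [Set.indicator_of_notMem (show 𝔞 ∉ {𝔞 | PrimeTo 𝔣 𝔞} from h2)]
      unfold cf
      rw [if_neg h2, zero_mul]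
  -- value and derivative of `Φ`
  have hnear : Φ =ᶠ[𝓝 0] fun s => (h : ℂ) * ζ g s - ∑ c, ζ c s := by
    have h1 : ∀ᶠ s : ℂ in 𝓝 0, s ≠ 1 := by
      refine (isOpen_ne).mem_nhds ?_
      exact zero_ne_one
    filter_upwards [h1] with s hs
    exact hΦζ s hs
  have hζa : ∀ c, DifferentiableAt ℂ (ζ c) 0 := by
    intro c
    have h1 : ∀ᶠ s : ℂ in 𝓝 0, s ≠ 1 := (isOpen_ne).mem_nhds zero_ne_one
    have h2 : (fun s => κ / (s - 1) + φ c s) =ᶠ[𝓝 0] ζ c := by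
      filter_upwards [h1] with s hs
      exact (hφ c s hs).symm
    refine DifferentiableAt.congr_of_eventuallyEq ?_ h2.symm
    have h3 : DifferentiableAt ℂ (φ c) 0 := by
      have := (hφa c 0 le_rfl zero_le_one).differentiableAt
      simpa using this
    refine DifferentiableAt.fun_add ?_ h3
    refine DifferentiableAt.fun_div (by fun_prop) (by fun_prop) ?_
    norm_num
  have hv : Φ 0 = 0 := by
    rw [hΦζ 0 zero_ne_one, hζ.zero g, Finset.sum_eq_zero fun c _ => hζ.zero c]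
    simp
  have hd : deriv Φ 0 = (h : ℂ) * deriv (ζ g) 0 := by
    rw [hnear.deriv_eq, deriv_fun_sub ((hζa g).const_mul _) (DifferentiableAt.fun_sum fun c _ => hζa c),
      deriv_const_mul _ (hζa g), deriv_fun_sum fun c _ => hζa c]
    have h1 := hζ.total
    rw [finsum_eq_sum_of_fintype] at h1
    rw [h1, sub_zero]
  obtain ⟨_, h2, h3⟩ := D.deriv_mean
  rw [hd] at h2 h3
  have hh0 : (h : ℝ) ≠ 0 := by exact_mod_cast hpos.ne'
  have hre : ((h : ℂ) * deriv (ζ g) 0).re = h * (deriv (ζ g) 0).re := by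
    rw [← Complex.ofReal_natCast, Complex.re_ofReal_mul]
  have him : ((h : ℂ) * deriv (ζ g) 0).im = h * (deriv (ζ g) 0).im := by
    rw [← Complex.ofReal_natCast, Complex.im_ofReal_mul]
  rw [hv, hre] at h3
  rw [him] at h2
  refine ⟨fun T hT => ?_, ?_, ?_⟩
  · have h4 := D.toD.term_summable 0 hT
    have h5 : Summable fun 𝔞 : Ideal (𝓞 k) => ‖cf 𝔣 A g 𝔞 * Pool.Agent.W189.ML.om (lgN 𝔞 / T)‖ := by
      refine h4.congr fun 𝔞 => ?_
      simp
    have h6 := h5.comp_injective (i := fun 𝔞 : {𝔞 : Ideal (𝓞 k) // PrimeTo 𝔣 𝔞} => 𝔞.1)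
      Subtype.val_injective
    refine h6.congr fun 𝔞 => ?_
    have e1 : cf 𝔣 A g 𝔞.1 * Pool.Agent.W189.ML.om (lgN 𝔞.1 / T) = biasTerm A g T 𝔞.1 := by
      unfold biasTerm cf Pool.Agent.W189.ML.om lgN
      rw [if_pos 𝔞.2]
      exact (div_eq_mul_inv _ _).symm
    show ‖cf 𝔣 A g 𝔞.1 * Pool.Agent.W189.ML.om (lgN 𝔞.1 / T)‖ = _
    rw [e1, Real.norm_eq_abs]
  · rcases mul_eq_zero.1 h2 with h4 | h4
    · exact absurd h4 hh0
    · exact h4
  · have h4 : (fun T : ℝ => bias 𝔣 A g T + (Real.eulerMascheroniConstant * (h : ℝ) *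
        (deriv (ζ g) 0).re) / T) =O[atTop] (fun T : ℝ => 1 / T ^ 2) := by
      refine h3.congr_left fun T => ?_
      rw [hbias T]
      simp
      ring
    exact (limit_of_bigO h4).2

end

/-- **Stark's conjecture for ATR fields and the bias of ideal classes.** `k` is an ATR field, `H` its narrow ray class
field modulo `𝔣` with the Artin map `A`, `ζ` are the partial zeta functions, and `ρ` is the chosen embedding of `H`, above
a complex embedding of `k`. -/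
theorem result (k H : Type) [Field k] [NumberField k] [Field H] [NumberField H] [Algebra k H]
    (𝔣 : Ideal (𝓞 k)) (_hk : IsATR 𝔣) (A : Ideal (𝓞 k) → (H ≃ₐ[k] H)) (hA : IsRayClassField 𝔣 A)
    (ζ : (H ≃ₐ[k] H) → ℂ → ℂ) (hζ : IsZetaSystem 𝔣 A ζ) (ρ : H →+* ℂ)
    (_hρ : ¬ ComplexEmbedding.IsReal (ρ.comp (algebraMap k H))) :
    -- absolute convergence
    (∀ (g : H ≃ₐ[k] H) (T : ℝ), 0 < T →
      Summable fun 𝔞 : {𝔞 : Ideal (𝓞 k) // PrimeTo 𝔣 𝔞} => |biasTerm A g T 𝔞.1|) ∧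
    -- 1. the derivatives at `0`
    (∀ g : H ≃ₐ[k] H, (deriv (ζ g) 0).im = 0 ∧
      (fun T : ℝ => T * bias 𝔣 A g T + Real.eulerMascheroniConstant * (Module.finrank k H : ℝ) *
        (deriv (ζ g) 0).re) =O[atTop] (fun T : ℝ => 1 / T)) ∧
    -- 2. condition 1
    (∀ u : H, StarkIdentities ρ ζ u ↔ BiasIdentities 𝔣 A ρ u) ∧
    -- 3. the conjecture
    ((∃ u : (𝓞 H)ˣ, StarkIdentities ρ ζ (u : H) ∧ OnCircles k (u : H) ∧ AbelianRoot k (u : H)) ↔
      ∃ u : (𝓞 H)ˣ, BiasIdentities 𝔣 A ρ (u : H) ∧ OnCircles k (u : H) ∧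
        AbelianRoot k (u : H)) := by
  have hW : (NumberField.Units.torsionOrder H : ℝ) ≠ 0 := by
    exact_mod_cast NumberField.Units.torsionOrder_ne_zero H
  have hfd : FiniteDimensional k H := Module.Finite.of_restrictScalars_finite ℚ k H
  have hh : (Module.finrank k H : ℝ) ≠ 0 := by
    have : 0 < Module.finrank k H := Module.finrank_pos
    exact_mod_cast this.ne'
  have hE : Real.eulerMascheroniConstant ≠ 0 := by
    have := Real.one_half_lt_eulerMascheroniConstant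
    intro h0
    rw [h0] at this
    norm_num at this
  have hiff : ∀ u : H, StarkIdentities ρ ζ u ↔ BiasIdentities 𝔣 A ρ u := by
    intro u
    refine forall_congr' fun g => ?_
    obtain ⟨-, h1, h2⟩ := main 𝔣 A hA ζ hζ g
    have h3 : Tendsto (fun T : ℝ => T * bias 𝔣 A g T) atTop
        (𝓝 (-(Real.eulerMascheroniConstant * (Module.finrank k H : ℝ) * (deriv (ζ g) 0).re))) := by
      have h4 := h2.trans_tendsto (tendsto_const_nhds.div_atTop tendsto_id)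
      have h5 := h4.add_const (-(Real.eulerMascheroniConstant * (Module.finrank k H : ℝ) *
        (deriv (ζ g) 0).re))
      rw [zero_add] at h5
      exact h5.congr fun T => by ring
    have hre : deriv (ζ g) 0 = ((deriv (ζ g) 0).re : ℂ) := by
      apply Complex.ext <;> simp [h1]
    constructor
    · intro h4
      have h5 : (deriv (ζ g) 0).re =
          -(1 / (NumberField.Units.torsionOrder H : ℝ)) * Real.log (‖ρ (g u)‖ ^ 2) := by
        rw [h4, Complex.ofReal_re]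
      rw [h5] at h3
      convert h3 using 2
      field_simp
    · intro h4
      have h5 := tendsto_nhds_unique h3 h4
      rw [hre]
      congr 1
      have h6 : Real.eulerMascheroniConstant * (Module.finrank k H : ℝ) * (deriv (ζ g) 0).re =
          Real.eulerMascheroniConstant * (Module.finrank k H : ℝ) *
          (-(1 / (NumberField.Units.torsionOrder H : ℝ)) * Real.log (‖ρ (g u)‖ ^ 2)) := by
        have h7 : Real.eulerMascheroniConstant * (Module.finrank k H : ℝ) /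
          (NumberField.Units.torsionOrder H : ℝ) * Real.log (‖ρ (g u)‖ ^ 2) =
          -(Real.eulerMascheroniConstant * (Module.finrank k H : ℝ) *
          (-(1 / (NumberField.Units.torsionOrder H : ℝ)) * Real.log (‖ρ (g u)‖ ^ 2))) := by
          field_simp
        rw [h7] at h5
        linarith
      exact mul_left_cancel₀ (mul_ne_zero hE hh) h6
  refine ⟨fun g T hT => (main 𝔣 A hA ζ hζ g).1 T hT, fun g => (main 𝔣 A hA ζ hζ g).2, hiff, ?_⟩
  exact exists_congr fun u => and_congr_left fun _ => hiff _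

end Pool.Agent.Results.MP_29cb78_nt.ClassBiasSums
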