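import Pool.Agent.X287.STM
import Pool.Agent.X287.STN

/-!
# The rank one abelian Stark conjecture for ATR fields: from larger moduli to smaller ones

`K` is a number field with exactly one complex place (every ATR field is allowed), `ι` one of its two embeddings which are not
real, `𝔪 ≠ (0), (1)` an ideal, `G` a finite abelian group, `c` a narrow class map modulo `𝔪` (for example the narrow ray class
group `Cl⁺(𝔪)` and the class of an ideal) and `ζ_𝔪(g, s)` the partial zeta functions. `H/K` is a Galois extension with group `G`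
(`art : G ≅ Gal(H/K)`), `τ` an embedding of `H` above `ι` (for example the narrow ray class field modulo `𝔪`).

For a prime `v ∤ 𝔪` let `G' → G`, `c'` and `H'/H` be the corresponding objects for the modulus `𝔪 v` (structure `Layer`). A Stark unit
for `𝔪` with exponent `e` is a unit `u` of `H` with (1) `ζ_𝔪'(g, 0) = - (1/e) log |τ(art(g) u)|²` for all `g ∈ G` and (2) absolute
value `1` in all the embeddings above real embeddings of `K`; the condition (3) is that `u` has an `e`-th root in an abelian extension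
of `K`. Let `ρ ∈ G` be an odd class: `ρ = c((x))` for some `x ≡ 1` modulo `𝔪` which is negative in an odd number of real embeddings.

1. (one prime) If there is a Stark unit for `𝔪 v` (conditions 1 and 2), then there is a unit `w` of `H` with absolute value `1` in all the
   embeddings above real embeddings and `log |τ(art(g) w)|² = - e (ζ_𝔪'(g, 0) - ζ_𝔪'(g c(v)⁻¹, 0))`; if `c(v)` is an odd class,
   this is `- 2 e ζ_𝔪'(g, 0)`: the square of the Stark unit for `𝔪` exists.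
2. (two primes) Let `v₁, v₂` be primes with `c(v₁) = c(v₂)` such that the degrees `[H'₁ : H]`, `[H'₂ : H]` are even, `H'₁ ∩ H'₂ = H` and
   all the roots of unity of the compositum are in `H`; let `e` be even. If there are Stark units with (1), (2) AND (3) for `𝔪 v₁` and for
   `𝔪 v₂`, then there is a unit `w` of `H` as in 1. with `- (e/2) (ζ_𝔪'(g, 0) - ζ_𝔪'(g c(v₁)⁻¹, 0))`. If `c(v₁)` is an odd class, then `w` is a
   Stark unit for `𝔪`: (1) and (2) hold.

So the conjecture for `𝔪 v₁` and `𝔪 v₂` implies its main part (the existence of the unit) for `𝔪`: if there is no Stark unit for `𝔪`,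
then the conjecture fails for all the `𝔪 v` with `v` of odd class (and even degree), with at most one exception. There are infinitely many
such primes by Chebotarev's theorem, for every `𝔪` and every real place of `K` (the totally positive units which are `≡ 1` modulo `𝔪`
have to be squares modulo `v`; that `H'₁ ∩ H'₂ = H` is the theory of the conductor). This is not formalised.

Ingredients: the relation between the partial zeta functions of `𝔪` and `𝔪 v` (`Pool.Agent.X287.STM`), the sign law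
`ζ_𝔪'(g ρ, 0) = - ζ_𝔪'(g, 0)` (`STW`), Kummer theory for the condition (3) (`STY`), Kronecker's theorem (`STN`).
-/

set_option autoImplicit false
set_option linter.unusedSectionVars false

open Filter Topology
open IsDedekindDomain NumberField

namespace Pool.Agent.Results.MP_29cb78_nt.LargerModuli

section defs
variable {K : Type} [Field K] [NumberField K] {G : Type} [CommGroup G] [Fintype G]

/-- `c` is multiplicative on the ideals prime to `𝔪`, and trivial on the ideals `(x)` with `x ≡ 1` modulo `𝔪`, `x` positive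
in all real embeddings. -/
structure IsClassMap (𝔪 : Ideal (𝓞 K)) (c : Ideal (𝓞 K) → G) : Prop where
  mul : ∀ I J : Ideal (𝓞 K), IsCoprime I 𝔪 → IsCoprime J 𝔪 → c (I * J) = c I * c J
  ray : ∀ x : 𝓞 K, x ≠ 0 → x - 1 ∈ 𝔪 → (∀ σ : K →+* ℝ, 0 < σ (x : K)) → c (Ideal.span {x}) = 1

/-- `Z g` is the partial zeta function of `g`, continued to `ℂ - {1}` and meromorphic at `1`. -/
structure IsPartialZeta (𝔪 : Ideal (𝓞 K)) (c : Ideal (𝓞 K) → G) (Z : G → ℂ → ℂ) : Prop where
  sum : ∀ (g : G) (s : ℂ), 1 < s.re → HasSum (fun I : {I : Ideal (𝓞 K) // IsCoprime I 𝔪 ∧ c I = g} =>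
    ((Ideal.absNorm I.1 : ℕ) : ℂ) ^ (-s)) (Z g s)
  analytic : ∀ (g : G) (s : ℂ), s ≠ 1 → AnalyticAt ℂ (Z g) s
  mero : ∀ g : G, MeromorphicAt (Z g) 1

/-- The number of real embeddings in which `x` is negative. -/
noncomputable def negatives (x : 𝓞 K) : ℕ := Nat.card {σ : K →+* ℝ // σ (x : K) < 0}

/-- `ρ` is the class of an element `x ≡ 1` modulo `𝔪` which is negative in an odd number of real embeddings. -/
def IsOddClass (𝔪 : Ideal (𝓞 K)) (c : Ideal (𝓞 K) → G) (ρ : G) : Prop :=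
  ∃ x : 𝓞 K, x ≠ 0 ∧ x - 1 ∈ 𝔪 ∧ Odd (negatives x) ∧ c (Ideal.span {x}) = ρ

/-- The conditions 1 and 2 of Q1 with exponent `e`, for the numbers `d g` in place of the `ζ'(g, 0)`. -/
structure IsStarkUnit {H : Type} [Field H] [NumberField H] [Algebra K H] (art : G ≃* Gal(H/K)) (τ : H →+* ℂ)
    (e : ℕ) (d : G → ℂ) (u : (𝓞 H)ˣ) : Prop where
  value : ∀ g, d g = ((-(1 / e) * Real.log (‖τ (art g ((u : 𝓞 H) : H))‖ ^ 2) : ℝ) : ℂ)
  circle : ∀ (φ : H →+* ℂ) (σ : K →+* ℝ), φ.comp (algebraMap K H) = Complex.ofRealHom.comp σ →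
    ‖φ ((u : 𝓞 H) : H)‖ = 1

/-- The condition 3 of Q1: `u` has an `e`-th root in an abelian extension `M` of `K` (which contains `H`). -/
def HasAbelianRoot (K : Type) [Field K] [NumberField K] {H : Type} [Field H] [NumberField H] [Algebra K H] (e : ℕ)
    (u : (𝓞 H)ˣ) : Prop :=
  ∃ (M : Type) (_ : Field M) (_ : NumberField M) (_ : Algebra H M) (_ : Algebra K M)
    (_ : IsScalarTower K H M) (_ : IsGalois K M) (α : M), (∀ a b : Gal(M/K), a * b = b * a) ∧
      α ^ e = algebraMap H M ((u : 𝓞 H) : H)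

/-- A prime `v ∤ 𝔪` with a class map `c'` modulo `𝔪 v` which refines `c`, its partial zeta functions `Z'`, and a Galois extension
`H'/K`, `H' ⊇ H`, whose Galois group is identified with `G'`, compatibly with `art`; `τ'` is an embedding above `τ`. -/
structure Layer (𝔪 : Ideal (𝓞 K)) (c : Ideal (𝓞 K) → G) {H : Type} [Field H] [NumberField H] [Algebra K H]
    (art : G ≃* Gal(H/K)) (τ : H →+* ℂ) where
  v : HeightOneSpectrum (𝓞 K)
  prime : IsCoprime v.asIdeal 𝔪
  G' : Type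
  [commGroup : CommGroup G']
  [fintype : Fintype G']
  c' : Ideal (𝓞 K) → G'
  isClassMap : IsClassMap (𝔪 * v.asIdeal) c'
  π : G' →* G
  surjective : Function.Surjective π
  classes : ∀ I, IsCoprime I (𝔪 * v.asIdeal) → π (c' I) = c I
  Z' : G' → ℂ → ℂ
  isPartialZeta : IsPartialZeta (𝔪 * v.asIdeal) c' Z'
  H' : Type
  [field : Field H']
  [numberField : NumberField H']
  [algebra : Algebra K H']
  [algebraH : Algebra H H']
  [tower : IsScalarTower K H H']
  [galois : IsGalois K H']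
  art' : G' ≃* Gal(H'/K)
  restrict : ∀ (g' : G') (x : H), art' g' (algebraMap H H' x) = algebraMap H H' (art (π g') x)
  τ' : H' →+* ℂ
  above : τ'.comp (algebraMap H H') = τ

attribute [instance] Layer.commGroup Layer.fintype Layer.field Layer.numberField Layer.algebra Layer.algebraH
  Layer.tower Layer.galois

/-- The conditions 1 and 2 of Q1 for the modulus `𝔪 v`. -/
def Layer.IsStark {𝔪 : Ideal (𝓞 K)} {c : Ideal (𝓞 K) → G} {H : Type} [Field H] [NumberField H] [Algebra K H]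
    {art : G ≃* Gal(H/K)} {τ : H →+* ℂ} (L : Layer 𝔪 c art τ) (e : ℕ) (u : (𝓞 L.H')ˣ) : Prop :=
  IsStarkUnit L.art' L.τ' e (fun g => deriv (L.Z' g) 0) u

/-- The images of `H₁` and `H₂` intersect in the image of `H`, and the roots of unity of the form `x₁ x₂` are in the image
of `H`. -/
structure Independent {H H₁ H₂ : Type} [Field H] [Field H₁] [Field H₂] (τ : H →+* ℂ) (τ₁ : H₁ →+* ℂ) (τ₂ : H₂ →+* ℂ) :
    Prop where
  inter : ∀ (x₁ : H₁) (x₂ : H₂), τ₁ x₁ = τ₂ x₂ → ∃ x : H, τ x = τ₁ x₁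
  roots : ∀ (x₁ : H₁) (x₂ : H₂) (n : ℕ), 0 < n → (τ₁ x₁ * τ₂ x₂) ^ n = 1 → ∃ x : H, τ x = τ₁ x₁ * τ₂ x₂

end defs

section aux
open Pool.Agent.X287.ST

variable {K : Type} [Field K] [NumberField K] {G : Type} [CommGroup G] [Fintype G]

theorem negatives_eq (x : 𝓞 K) [DecidablePred fun σ : K →+* ℝ => σ (x : K) < 0] :
    negatives x = (Finset.univ.filter fun σ : K →+* ℝ => σ (x : K) < 0).card := by
  unfold negatives
  rw [Nat.card_eq_fintype_card, Fintype.card_subtype]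

theorem real_ne {ι : K →+* ℂ} (hι : ¬ComplexEmbedding.IsReal ι) (σ : K →+* ℝ) :
    Complex.ofRealHom.comp σ ≠ ι ∧ Complex.ofRealHom.comp σ ≠ ComplexEmbedding.conjugate ι := by
  have h1 : ComplexEmbedding.IsReal (Complex.ofRealHom.comp σ) := emb_real σ
  constructor
  · intro h
    rw [h] at h1
    exact hι h1
  · intro h
    rw [h, ComplexEmbedding.isReal_conjugate_iff] at h1
    exact hι h1

theorem circ_iff (hK : InfinitePlace.nrComplexPlaces K = 1) {ι : K →+* ℂ} (hι : ¬ComplexEmbedding.IsReal ι)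
    {H : Type} [Field H] [NumberField H] [Algebra K H] (w : H) :
    Circ ι w ↔ ∀ (φ : H →+* ℂ) (σ : K →+* ℝ), φ.comp (algebraMap K H) = Complex.ofRealHom.comp σ → ‖φ w‖ = 1 := by
  constructor
  · intro h φ σ hφ
    obtain ⟨h1, h2⟩ := real_ne hι σ
    exact h φ (by rw [hφ]; exact h1) (by rw [hφ]; exact h2)
  · intro h φ h1 h2
    rcases emb_cases hK hι (φ.comp (algebraMap K H)) with ⟨σ, hσ⟩ | h3 | h3
    · exact h φ σ hσ
    · exact absurd h3 h1
    · exact absurd h3 h2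

theorem value_iff {H : Type} [Field H] [NumberField H] [Algebra K H] (art : G ≃* Gal(H/K)) (τ : H →+* ℂ) {e : ℕ}
    (he : 0 < e) (d : ℝ) (u : (𝓞 H)ˣ) (g : G) :
    ((d : ℂ) = ((-(1 / e) * Real.log (‖τ (art g ((u : 𝓞 H) : H))‖ ^ 2) : ℝ) : ℂ)) ↔
      ‖τ (art g ((u : 𝓞 H) : H))‖ ^ 2 = Real.exp (-(e * d)) := by
  have he' : (e : ℝ) ≠ 0 := by
    have := he.ne'
    exact_mod_cast this
  have hpos : 0 < ‖τ (art g ((u : 𝓞 H) : H))‖ ^ 2 := by
    have h2 : ((u : 𝓞 H) : H) ≠ 0 := by simp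
    have h3 : τ (art g ((u : 𝓞 H) : H)) ≠ 0 := by
      rw [_root_.map_ne_zero]
      exact (map_ne_zero_iff _ (art g).injective).2 h2
    positivity
  constructor
  · intro h
    have h1 := Complex.ofReal_injective h
    rw [h1, show -((e : ℝ) * (-(1 / e) * Real.log (‖τ (art g ((u : 𝓞 H) : H))‖ ^ 2))) =
        Real.log (‖τ (art g ((u : 𝓞 H) : H))‖ ^ 2) by field_simp, Real.exp_log hpos]
  · intro h
    rw [h, Real.log_exp]
    congr 1
    field_simp

theorem card_ker {G' : Type} [CommGroup G'] [Fintype G'] (π : G' →* G) [DecidablePred fun κ => π κ = 1] :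
    (Finset.univ.filter (fun κ => π κ = 1)).card = Nat.card π.ker := by
  rw [← Fintype.card_subtype, ← Nat.card_eq_fintype_card]
  exact Nat.card_congr (Equiv.refl _)

/-- the square root of the number -/
theorem exp_half {x y : ℝ} (hx : 0 ≤ x) (h : x ^ 2 = Real.exp y) : x = Real.exp (y / 2) := by
  have h1 : (Real.exp (y / 2)) ^ 2 = Real.exp y := by
    rw [← Real.exp_nat_mul]
    congr 1
    push_cast
    ring
  exact (pow_left_inj₀ hx (Real.exp_pos _).le two_ne_zero).1 (by rw [h, h1])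

end aux

open Pool.Agent.X287.ST in
/-- **Stark's conjecture for ATR fields: from larger moduli to smaller ones.** -/
theorem result (K : Type) [Field K] [NumberField K] (hK : InfinitePlace.nrComplexPlaces K = 1) (ι : K →+* ℂ)
    (hι : ¬ComplexEmbedding.IsReal ι) (𝔪 : Ideal (𝓞 K)) (h0 : 𝔪 ≠ ⊥) (h1 : 𝔪 ≠ ⊤) (G : Type) [CommGroup G] [Fintype G]
    (c : Ideal (𝓞 K) → G) (hc : IsClassMap 𝔪 c) (Z : G → ℂ → ℂ) (hZ : IsPartialZeta 𝔪 c Z) (H : Type) [Field H]
    [NumberField H] [Algebra K H] [IsGalois K H] (art : G ≃* Gal(H/K)) (τ : H →+* ℂ)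
    (hτ : τ.comp (algebraMap K H) = ι) (e : ℕ) (he : 0 < e) :
    -- 1. one prime
    (∀ (L : Layer 𝔪 c art τ) (u : (𝓞 L.H')ˣ), L.IsStark e u →
      (∃ w : (𝓞 H)ˣ, IsStarkUnit art τ e (fun g => deriv (Z g) 0 - deriv (Z (g * (c L.v.asIdeal)⁻¹)) 0) w) ∧
      (IsOddClass 𝔪 c (c L.v.asIdeal) → ∃ w : (𝓞 H)ˣ, IsStarkUnit art τ e (fun g => 2 * deriv (Z g) 0) w)) ∧
    -- 2. two primes
    (Even e → ∀ (L₁ L₂ : Layer 𝔪 c art τ) (u₁ : (𝓞 L₁.H')ˣ) (u₂ : (𝓞 L₂.H')ˣ),
      c L₁.v.asIdeal = c L₂.v.asIdeal → Even (Nat.card L₁.π.ker) → Even (Nat.card L₂.π.ker) →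
      Independent τ L₁.τ' L₂.τ' → L₁.IsStark e u₁ → L₂.IsStark e u₂ → HasAbelianRoot K e u₁ → HasAbelianRoot K e u₂ →
      (∃ w : (𝓞 H)ˣ, IsStarkUnit art τ e (fun g => (deriv (Z g) 0 - deriv (Z (g * (c L₁.v.asIdeal)⁻¹)) 0) / 2) w) ∧
      (IsOddClass 𝔪 c (c L₁.v.asIdeal) → ∃ w : (𝓞 H)ˣ, IsStarkUnit art τ e (fun g => deriv (Z g) 0) w)) := by
  classical
  have hcR : IsClassMapR 𝔪 ∅ c := ⟨hc.mul, fun x hx0 hx1 hx2 => hc.ray x hx0 hx1 fun σ => hx2 σ (by simp)⟩
  have hcc : Pool.Agent.X287.ST.IsClassMap 𝔪 c := hcR.toClass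
  have hr : 1 ≤ (∅ : Finset (K →+* ℝ)).card + InfinitePlace.nrComplexPlaces K := by
    rw [hK]
    simp
  have hr1 : 1 ≤ InfinitePlace.nrComplexPlaces K := hK.ge
  have hγ : Real.pi / 2 < Real.pi := by linarith [Real.pi_pos]
  have hZ' : IsPZ 𝔪 c Z := ⟨hZ.sum, hZ.analytic, hZ.mero⟩
  have hone := fun A => one_place h1 h0 hcR hr hZ' hγ A
  set d : G → ℝ := fun g => (deriv (Z g) 0).re with hd
  have hdr : ∀ g, deriv (Z g) 0 = (d g : ℂ) := fun g => by
    apply Complex.ext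
    · rw [Complex.ofReal_re]
    · rw [Complex.ofReal_im]
      exact (hone g).2.1
  -- the sign law
  have hodd : ∀ ρ : G, IsOddClass 𝔪 c ρ → ∀ g, deriv (Z (g * ρ⁻¹)) 0 = -deriv (Z g) 0 := by
    rintro ρ ⟨x, hx0, hx1, hx2, rfl⟩ g
    have h2 := sign_law h1 h0 hcc hr1 hZ' hx0 hx1 (g * (c (Ideal.span {x}))⁻¹)
    rw [← negatives_eq, hx2.neg_one_pow, inv_mul_cancel_right, neg_one_mul] at h2
    rw [h2, neg_neg]
  -- one prime
  have hstep : ∀ (L : Layer 𝔪 c art τ) (u : (𝓞 L.H')ˣ), L.IsStark e u → ∃ w : (𝓞 H)ˣ,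
      algebraMap H L.H' ((w : 𝓞 H) : H) = nrm L.art' L.π ((u : 𝓞 L.H') : L.H') ∧ Circ ι ((w : 𝓞 H) : H) ∧
      ∀ g, ‖τ (art g ((w : 𝓞 H) : H))‖ ^ 2 = Real.exp (-(e * (d g - d (g * (c L.v.asIdeal)⁻¹)))) := by
    intro L u hu
    have hne : 𝔪 * L.v.asIdeal ≠ ⊤ := by
      intro h
      exact h1 (eq_top_iff.2 (h ▸ (Ideal.mul_le_inf.trans inf_le_left)))
    have hne0 : 𝔪 * L.v.asIdeal ≠ ⊥ := mul_ne_zero h0 L.v.ne_bot
    have hcR' : IsClassMapR (𝔪 * L.v.asIdeal) ∅ L.c' := ⟨L.isClassMap.mul, fun x hx0 hx1 hx2 =>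
      L.isClassMap.ray x hx0 hx1 fun σ => hx2 σ (by simp)⟩
    have hL' : IsPZ (𝔪 * L.v.asIdeal) L.c' L.Z' :=
      ⟨L.isPartialZeta.sum, L.isPartialZeta.analytic, L.isPartialZeta.mero⟩
    have hcirc : Circ ι ((u : 𝓞 L.H') : L.H') := (circ_iff hK hι _).2 hu.circle
    obtain ⟨w, hw1, hw2, hw3⟩ := norm_unit art L.art' L.surjective L.restrict L.above u hcirc
    refine ⟨w, hw1, hw2, fun g => ?_⟩
    have hone' := fun A => one_place hne hne0 hcR' hr hL' hγ A
    have hdr' : ∀ g', deriv (L.Z' g') 0 = (((deriv (L.Z' g') 0).re : ℝ) : ℂ) := fun g' => by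
      apply Complex.ext
      · rw [Complex.ofReal_re]
      · rw [Complex.ofReal_im]
        exact (hone' g').2.1
    have hval : ∀ g', ‖L.τ' (L.art' g' ((u : 𝓞 L.H') : L.H'))‖ ^ 2 = Real.exp (-(e * (deriv (L.Z' g') 0).re)) := by
      intro g'
      refine (value_iff L.art' L.τ' he _ u g').1 ?_
      rw [← hdr']
      exact hu.value g'
    have hsum := euler_deriv h1 hcc hZ' (fun g => (hone g).1) L.prime hcR'.toClass L.π L.classes hL' g
    have hsum2 : ∑ g' ∈ Finset.univ.filter (fun g' => L.π g' = g), (deriv (L.Z' g') 0).re =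
        d g - d (g * (c L.v.asIdeal)⁻¹) := by
      have h2 := congrArg Complex.re hsum
      rw [Complex.re_sum, Complex.sub_re] at h2
      exact h2
    rw [hw3 g, ← Finset.prod_pow, Finset.prod_congr rfl fun g' _ => hval g', ← Real.exp_sum,
      Finset.sum_neg_distrib, ← Finset.mul_sum, hsum2]
  refine ⟨fun L u hu => ?_, fun hee L₁ L₂ u₁ u₂ hcl hk₁ hk₂ hind hu₁ hu₂ hr₁ hr₂ => ?_⟩
  · obtain ⟨w, -, hw2, hw3⟩ := hstep L u hu
    have hmain : IsStarkUnit art τ e (fun g => deriv (Z g) 0 - deriv (Z (g * (c L.v.asIdeal)⁻¹)) 0) w := by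
      refine ⟨fun g => ?_, (circ_iff hK hι _).1 hw2⟩
      rw [hdr, hdr, ← Complex.ofReal_sub]
      exact (value_iff art τ he _ w g).2 (hw3 g)
    refine ⟨⟨w, hmain⟩, fun hO => ⟨w, ?_⟩⟩
    have h2 : (fun g => 2 * deriv (Z g) 0) = fun g => deriv (Z g) 0 - deriv (Z (g * (c L.v.asIdeal)⁻¹)) 0 := by
      funext g
      rw [hodd _ hO g]
      ring
    rw [h2]
    exact hmain
  · obtain ⟨w₁, hw₁1, hw₁2, hw₁3⟩ := hstep L₁ u₁ hu₁
    obtain ⟨w₂, hw₂1, hw₂2, hw₂3⟩ := hstep L₂ u₂ hu₂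
    obtain ⟨m, hm⟩ := hee
    have hroot : ∀ (L : Layer 𝔪 c art τ) (u : (𝓞 L.H')ˣ), Even (Nat.card L.π.ker) → HasAbelianRoot K e u →
        ∃ b : L.H', b ^ 2 = nrm L.art' L.π ((u : 𝓞 L.H') : L.H') := by
      intro L u hk hr
      obtain ⟨M, _, _, _, _, _, _, α, hcomm, hα⟩ := hr
      have hu0 : ((u : 𝓞 L.H') : L.H') ≠ 0 := by simp
      refine nrm_square L.art' (by rw [card_ker]; exact hk) hu0 hcomm (α := α ^ m) ?_
      rw [← pow_mul, mul_comm, two_mul, ← hm]
      exact hα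
    obtain ⟨b₁, hb₁⟩ := hroot L₁ u₁ hk₁ hr₁
    obtain ⟨b₂, hb₂⟩ := hroot L₂ u₂ hk₂ hr₂
    have hsame : ∀ A, ‖τ (art A ((w₁ : 𝓞 H) : H))‖ = ‖τ (art A ((w₂ : 𝓞 H) : H))‖ := by
      intro A
      have h2 : ‖τ (art A ((w₁ : 𝓞 H) : H))‖ ^ 2 = ‖τ (art A ((w₂ : 𝓞 H) : H))‖ ^ 2 := by
        rw [hw₁3, hw₂3, hcl]
      exact (pow_left_inj₀ (norm_nonneg _) (norm_nonneg _) two_ne_zero).1 h2
    obtain ⟨w, hw⟩ := two_roots art hτ L₁.above L₂.above ⟨hind.inter, hind.roots⟩ hw₁2 hw₂2 hsame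
      (hb₁.trans hw₁1.symm) (hb₂.trans hw₂1.symm)
    have hmain : IsStarkUnit art τ e
        (fun g => (deriv (Z g) 0 - deriv (Z (g * (c L₁.v.asIdeal)⁻¹)) 0) / 2) w := by
      refine ⟨fun g => ?_, fun φ σ hφ => ?_⟩
      · have h3 : (deriv (Z g) 0 - deriv (Z (g * (c L₁.v.asIdeal)⁻¹)) 0) / 2 =
            (((d g - d (g * (c L₁.v.asIdeal)⁻¹)) / 2 : ℝ) : ℂ) := by
          rw [hdr, hdr]
          push_cast
          ring
        rw [h3]
        refine (value_iff art τ he _ w g).2 ?_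
        have h4 := hw₁3 g
        rw [← hw, map_pow, map_pow, norm_pow] at h4
        rw [exp_half (by positivity) h4]
        congr 1
        ring
      · have h3 := (circ_iff hK hι _).1 hw₁2 φ σ hφ
        rw [← hw, map_pow, norm_pow] at h3
        exact (pow_eq_one_iff_of_nonneg (norm_nonneg _) two_ne_zero).1 h3
    refine ⟨⟨w, hmain⟩, fun hO => ⟨w, ?_⟩⟩
    have h2 : (fun g => deriv (Z g) 0) = fun g => (deriv (Z g) 0 - deriv (Z (g * (c L₁.v.asIdeal)⁻¹)) 0) / 2 := by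
      funext g
      rw [hodd _ hO g]
      ring
    rw [h2]
    exact hmain

end Pool.Agent.Results.MP_29cb78_nt.LargerModuli
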