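import Pool.Agent.X242.DR10

/-!
# Stark's conjecture over ATR fields and universal rational approximations

Let `K` be an ATR field (exactly one pair of complex embeddings, at least one real embedding), `𝔣 ≠ (0), (1)` an ideal,
`H = K⁺(𝔣)` the narrow ray class field with group `G`, `e` the number of roots of unity of `H` and `φ` an embedding of `H`
above the complex embedding of `K`.

**Rational weights.** Let `C_1(γ) = -(γ_E + iγ)`, with Euler's constant `γ_E`. Fix `γ > π/2` and rational numbers `ρ_N(n)`,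
for every `N` almost all of them zero, with
`|ρ_N(n) - Re (N e^{iγ log n / N} / (C_1(γ) Γ(1 + log n / N)))| ≤ 1 / (N n²)`. They do not depend on `K`, `𝔣`. For `g` in
`G` put `x_N(g) = ∑_𝔞 ρ_N(N 𝔞)`, summed over the ideals prime to `𝔣` with `σ_𝔞 = g`: a rational number, a finite rational
linear combination of the numbers of ideals of given norm in the class `g`.

Everything is proved without assumptions on the zeta functions (the continuation and the vanishing at `0` of the partial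
zeta functions are theorems of the library `Pool.Agent.X287`).

1. `x_N(g) = ζ_𝔣'(g, 0) + O(1/N)`.
2. An element `u` of `H` has the property 1 of the conjecture if and only if `x_N(g) → -(1/e) log |u^g|²` for all `g`.
3. **The whole conjecture in terms of approximations.** Let `Λ` be the set of the vectors `(-(1/e) log |u^g|²)_g` for the
   units `u` of `H` with the properties 2 and 3 of the conjecture. There is a unit with the properties 1, 2, 3 if and only if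
   the rational vectors `x_N` come arbitrarily close to `Λ` for arbitrarily large `N`.
   (The proof uses that an algebraic integer of `H` with all conjugates bounded belongs to a finite set.)
4. The same for the properties 1 and 2 alone.
5. If the conjecture is false for `(K, 𝔣)` then there is a `δ > 0` such that for all large `N` all the vectors of `Λ` have
   distance at least `δ` from `x_N`; if it is true there is a `u` with the properties 2 and 3 such that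
   `x_N(g) = -(1/e) log |u^g|² + O(1/N)` for all `g`.
-/

set_option autoImplicit false

namespace Pool.Agent.Results.MP_29cb78_nt.LatticeApproximations

open Filter Topology NumberField IsDedekindDomain Pool.Agent.X242.DR Asymptotics

section

variable {K H : Type} [Field K] [NumberField K] [Field H] [NumberField H] [Algebra K H]

variable (K) in
/-- `K` is an ATR field. -/
structure IsATR : Prop where
  complex : InfinitePlace.nrComplexPlaces K = 1
  real : 1 ≤ InfinitePlace.nrRealPlaces K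

/-- `𝔞` and `𝔟` have the same narrow ray class modulo `𝔣`: `α 𝔞 = β 𝔟` with nonzero integers `α ≡ β ≡ 1` modulo `𝔣`
such that `β / α` is positive at the real embeddings. -/
def SameClass (𝔣 𝔞 𝔟 : Ideal (𝓞 K)) : Prop :=
  ∃ α β : 𝓞 K, α ≠ 0 ∧ β ≠ 0 ∧ α - 1 ∈ 𝔣 ∧ β - 1 ∈ 𝔣 ∧
    (∀ σ : K →+* ℝ, 0 < σ (α : K) * σ (β : K)) ∧ Ideal.span {α} * 𝔞 = Ideal.span {β} * 𝔟

/-- `H` is the narrow ray class field of `K` modulo `𝔣` with the Artin map `A`: multiplicative and onto, with value the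
Frobenius automorphism at the primes not dividing `𝔣`, and `A 𝔞 = A 𝔟` exactly for ideals of the same class. -/
structure IsRayClassField (𝔣 : Ideal (𝓞 K)) (A : Ideal (𝓞 K) → (H ≃ₐ[K] H)) : Prop where
  galois : IsGalois K H
  mul : ∀ 𝔞 𝔟 : Ideal (𝓞 K), IsCoprime 𝔞 𝔣 → IsCoprime 𝔟 𝔣 → A (𝔞 * 𝔟) = A 𝔞 * A 𝔟
  onto : ∀ g : H ≃ₐ[K] H, ∃ 𝔞 : Ideal (𝓞 K), IsCoprime 𝔞 𝔣 ∧ A 𝔞 = g
  frob : ∀ 𝔭 : HeightOneSpectrum (𝓞 K), IsCoprime 𝔭.asIdeal 𝔣 → ∀ 𝔓 : HeightOneSpectrum (𝓞 H),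
    𝔓.asIdeal.comap (algebraMap (𝓞 K) (𝓞 H)) = 𝔭.asIdeal → ∀ x y : 𝓞 H,
      (y : H) = A 𝔭.asIdeal (x : H) → y - x ^ (Ideal.absNorm 𝔭.asIdeal) ∈ 𝔓.asIdeal
  ker : ∀ 𝔞 𝔟 : Ideal (𝓞 K), IsCoprime 𝔞 𝔣 → IsCoprime 𝔟 𝔣 → (A 𝔞 = A 𝔟 ↔ SameClass 𝔣 𝔞 𝔟)

variable (K) in
/-- `u` is a unit with the property 2: all the embeddings of `H` above the real embeddings of `K` map `u` to the unit
circle. -/
def IsCircleUnit (u : H) : Prop :=
  (∃ a : (𝓞 H)ˣ, ((a : 𝓞 H) : H) = u) ∧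
    ∀ ψ : H →+* ℂ, ComplexEmbedding.IsReal (ψ.comp (algebraMap K H)) → ‖ψ u‖ = 1

/-- `-(1/e) log |u^g|²`, where `|x| = ‖φ x‖` -/
noncomputable def logVec (φ : H →+* ℂ) (u : H) (g : H ≃ₐ[K] H) : ℝ :=
  -(1 / (NumberField.Units.torsionOrder H : ℝ)) * Real.log (‖φ (g u)‖ ^ 2)

/-- Property 1: `ζ_𝔣'(g, 0) = -(1/e) log |u^g|²` for all `g`. -/
def StarkIdentities (φ : H →+* ℂ) (ζ : (H ≃ₐ[K] H) → ℂ → ℂ) (u : H) : Prop :=
  ∀ g : H ≃ₐ[K] H, deriv (ζ g) 0 = (logVec φ u g : ℂ)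

variable (K) in
/-- Property 3: `H(u^{1/e})/K` is abelian, `e` the number of roots of unity in `H`: for a root `η` of `X ^ e = u` in an
algebraic closure `H(η)/K` is Galois with abelian Galois group. -/
def AbelianRoot (u : H) : Prop :=
  ∃ η : AlgebraicClosure H, η ^ (NumberField.Units.torsionOrder H) = algebraMap H _ u ∧
    IsGalois K (IntermediateField.adjoin K
      (Set.range (algebraMap H (AlgebraicClosure H)) ∪ {η})) ∧
    ∀ σ τ : (IntermediateField.adjoin K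
      (Set.range (algebraMap H (AlgebraicClosure H)) ∪ {η})) ≃ₐ[K] (IntermediateField.adjoin K
      (Set.range (algebraMap H (AlgebraicClosure H)) ∪ {η})), σ * τ = τ * σ

/-- The vector `x_N` has distance less than `δ` (in the maximum norm) from a vector of an element `u` with the
property `P`. -/
def Close (𝔣 : Ideal (𝓞 K)) (A : Ideal (𝓞 K) → (H ≃ₐ[K] H)) (ρ : ℕ → ℕ →₀ ℚ) (φ : H →+* ℂ) (P : H → Prop)
    (N : ℕ) (δ : ℝ) : Prop :=
  ∃ u : H, P u ∧ ∀ g : H ≃ₐ[K] H, |(classComb 𝔣 A (ρ N) g : ℝ) - logVec φ u g| < δ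

/-- The vectors `x_N` come arbitrarily close to the vectors of the elements `u` with the property `P`, for arbitrarily
large `N`. -/
def ComesClose (𝔣 : Ideal (𝓞 K)) (A : Ideal (𝓞 K) → (H ≃ₐ[K] H)) (ρ : ℕ → ℕ →₀ ℚ) (φ : H →+* ℂ)
    (P : H → Prop) : Prop :=
  ∀ δ : ℝ, 0 < δ → ∀ N₀ : ℕ, ∃ N ≥ N₀, Close 𝔣 A ρ φ P N δ

theorem gal_finite : Finite (H ≃ₐ[K] H) := by
  have : Module.Finite K H := Module.Finite.of_restrictScalars_finite ℚ K H
  infer_instance

theorem integral {u : H} (h : IsCircleUnit K u) : IsIntegral ℤ u := by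
  obtain ⟨a, ha⟩ := h.1
  rw [← ha]
  exact (a : 𝓞 H).2

theorem ne_zero {u : H} (h : IsCircleUnit K u) : u ≠ 0 := by
  obtain ⟨a, ha⟩ := h.1
  rw [← ha]
  intro h0
  refine a.ne_zero (RingOfIntegers.coe_injective ?_)
  rw [map_zero]
  exact h0

/-- The conjugates are bounded by the logarithms. -/
theorem bounded [IsGalois K H] (hK : IsATR K) {φ : H →+* ℂ}
    (hφ : ¬ ComplexEmbedding.IsReal (φ.comp (algebraMap K H))) (B : ℝ) :
    ∃ B' : ℝ, ∀ u : H, IsCircleUnit K u → (∀ g : H ≃ₐ[K] H, |logVec φ u g| ≤ B) →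
      ∀ ψ : H →+* ℂ, ‖ψ u‖ ≤ B' := by
  have hW : (0 : ℝ) < (NumberField.Units.torsionOrder H : ℝ) := by
    exact_mod_cast NumberField.Units.torsionOrder_pos H
  refine ⟨1 + Real.exp ((NumberField.Units.torsionOrder H : ℝ) * B), fun u hu hg ψ => ?_⟩
  have hexp : 0 < Real.exp ((NumberField.Units.torsionOrder H : ℝ) * B) := Real.exp_pos _
  by_cases hψ : ComplexEmbedding.IsReal (ψ.comp (algebraMap K H))
  · rw [hu.2 ψ hψ]
    linarith
  · have h1 : InfinitePlace.mk (φ.comp (algebraMap K H)) = InfinitePlace.mk (ψ.comp (algebraMap K H)) := by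
      classical
      have h2 : Fintype.card {w : InfinitePlace K // w.IsComplex} = 1 := by
        rw [← hK.complex]
      have h3 := Fintype.card_le_one_iff.1 h2.le
        ⟨InfinitePlace.mk (φ.comp (algebraMap K H)), InfinitePlace.isComplex_mk_iff.2 hφ⟩
        ⟨InfinitePlace.mk (ψ.comp (algebraMap K H)), InfinitePlace.isComplex_mk_iff.2 hψ⟩
      exact congrArg Subtype.val h3
    rw [← InfinitePlace.comap_mk, ← InfinitePlace.comap_mk] at h1
    obtain ⟨σ, hσ⟩ := InfinitePlace.exists_smul_eq_of_comap_eq h1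
    have h2 : ‖ψ u‖ = ‖φ (σ.symm u)‖ := by
      rw [← InfinitePlace.apply ψ, ← hσ, InfinitePlace.smul_apply, InfinitePlace.apply]
    rw [h2]
    have h3 := hg σ.symm
    unfold logVec at h3
    have h4 : Real.log (‖φ (σ.symm u)‖ ^ 2) ≤ (NumberField.Units.torsionOrder H : ℝ) * B := by
      have h5 := (abs_le.1 h3).1
      have h6 : (NumberField.Units.torsionOrder H : ℝ) *
          (-(1 / (NumberField.Units.torsionOrder H : ℝ)) * Real.log (‖φ (σ.symm u)‖ ^ 2)) =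
          -Real.log (‖φ (σ.symm u)‖ ^ 2) := by
        field_simp
      have h7 := mul_le_mul_of_nonneg_left h5 hW.le
      rw [h6] at h7
      linarith
    have hne : φ (σ.symm u) ≠ 0 := by
      rw [Ne, map_eq_zero, map_eq_zero_iff _ σ.symm.injective]
      exact ne_zero hu
    have h5 : ‖φ (σ.symm u)‖ ^ 2 ≤ Real.exp ((NumberField.Units.torsionOrder H : ℝ) * B) := by
      rw [← Real.log_le_iff_le_exp (by positivity)]
      exact h4
    nlinarith [norm_nonneg (φ (σ.symm u)), sq_nonneg (‖φ (σ.symm u)‖ - 1)]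

end

/-- **Stark's conjecture over ATR fields and rational approximations.** `K` is an ATR field, `H` is its narrow ray class
field modulo `𝔣` with the Artin map `A`, `ζ` are the partial zeta functions, and `φ` is an embedding of `H` above the
complex embedding of `K`. -/
theorem result :
    -- 0. the weights exist
    ((∀ γ : ℝ, Ck 1 γ = -(Real.eulerMascheroniConstant + γ * Complex.I)) ∧
      ∀ γ : ℝ, ∃ ρ, IsRational 1 γ ρ) ∧
    ∀ γ : ℝ, Real.pi / 2 < γ → ∀ ρ : ℕ → ℕ →₀ ℚ, IsRational 1 γ ρ →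
    ∀ (K H : Type) [Field K] [NumberField K] [Field H] [NumberField H] [Algebra K H]
      (𝔣 : Ideal (𝓞 K)), IsATR K → 𝔣 ≠ ⊥ → 𝔣 ≠ ⊤ →
    ∀ A : Ideal (𝓞 K) → (H ≃ₐ[K] H), IsRayClassField 𝔣 A →
    (∃ ζ : (H ≃ₐ[K] H) → ℂ → ℂ, PZ 𝔣 A ζ) ∧
    ∀ ζ : (H ≃ₐ[K] H) → ℂ → ℂ, PZ 𝔣 A ζ →
    ∀ φ : H →+* ℂ, ¬ ComplexEmbedding.IsReal (φ.comp (algebraMap K H)) →
    -- 1. the approximations
    (∀ g : H ≃ₐ[K] H, ζ g 0 = 0 ∧ (deriv (ζ g) 0).im = 0 ∧
      (fun N : ℕ => (classComb 𝔣 A (ρ N) g : ℝ) - (deriv (ζ g) 0).re) =O[atTop]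
        (fun N : ℕ => 1 / (N : ℝ))) ∧
    -- 2. property 1
    (∀ u : H, StarkIdentities φ ζ u ↔
      ∀ g : H ≃ₐ[K] H, Tendsto (fun N : ℕ => (classComb 𝔣 A (ρ N) g : ℝ)) atTop
        (𝓝 (logVec φ u g))) ∧
    -- 3. the conjecture
    ((∃ u : H, IsCircleUnit K u ∧ StarkIdentities φ ζ u ∧ AbelianRoot K u) ↔
      ComesClose 𝔣 A ρ φ fun u => IsCircleUnit K u ∧ AbelianRoot K u) ∧
    -- 4. the properties 1 and 2
    ((∃ u : H, IsCircleUnit K u ∧ StarkIdentities φ ζ u) ↔ ComesClose 𝔣 A ρ φ (IsCircleUnit K)) ∧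
    -- 5. the alternative
    ((∃ u : H, (IsCircleUnit K u ∧ AbelianRoot K u) ∧ ∀ g : H ≃ₐ[K] H,
        (fun N : ℕ => (classComb 𝔣 A (ρ N) g : ℝ) - logVec φ u g) =O[atTop]
          (fun N : ℕ => 1 / (N : ℝ))) ∨
      ∃ δ : ℝ, 0 < δ ∧ ∃ N₀ : ℕ, ∀ N ≥ N₀, ¬ Close 𝔣 A ρ φ (fun u => IsCircleUnit K u ∧ AbelianRoot K u) N δ) := by
  refine ⟨⟨fun γ => Ck_one γ, fun γ => exists_rational 1 γ⟩, ?_⟩
  intro γ hγ ρ hρ K H _ _ _ _ _ 𝔣 hK h𝔣0 h𝔣1 A hA
  have hgal := hA.galois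
  have hfin : Finite (H ≃ₐ[K] H) := gal_finite
  -- the Galois group is commutative, and the Artin map is a class map
  have hcomm : ∀ σ τ : H ≃ₐ[K] H, σ * τ = τ * σ := by
    intro σ τ
    obtain ⟨𝔞, h𝔞, rfl⟩ := hA.onto σ
    obtain ⟨𝔟, h𝔟, rfl⟩ := hA.onto τ
    rw [← hA.mul 𝔞 𝔟 h𝔞 h𝔟, ← hA.mul 𝔟 𝔞 h𝔟 h𝔞, mul_comm]
  have h1 : IsCoprime (⊤ : Ideal (𝓞 K)) 𝔣 := by
    rw [← Ideal.one_eq_top]
    exact isCoprime_one_left
  have hone : A ⊤ = 1 := by
    have h2 := hA.mul ⊤ ⊤ h1 h1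
    rw [Ideal.mul_top] at h2
    exact left_eq_mul.1 h2
  have hray : ∀ x : 𝓞 K, x ≠ 0 → x - 1 ∈ 𝔣 → (∀ σ : K →+* ℝ, σ ∉ (∅ : Finset (K →+* ℝ)) →
      0 < σ (x : K)) → A (Ideal.span {x}) = 1 := by
    intro x hx0 hx1 hx2
    have h2 : IsCoprime (Ideal.span {x}) 𝔣 := Pool.Agent.X287.ST.cop_span hx1
    refine Eq.trans ((hA.ker _ _ h2 h1).2 ?_) hone
    refine ⟨1, x, one_ne_zero, hx0, ?_, hx1, fun σ => ?_, ?_⟩
    · rw [sub_self]
      exact 𝔣.zero_mem
    · have := hx2 σ (Finset.notMem_empty σ)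
      simpa using this
    · rw [Ideal.span_singleton_one, Ideal.mul_top, Ideal.top_mul]
  have hr : 1 ≤ (∅ : Finset (K →+* ℝ)).card + InfinitePlace.nrComplexPlaces K := by
    rw [hK.complex]
    simp
  refine ⟨(class_facts hcomm h𝔣1 h𝔣0 hA.mul hray).1, ?_⟩
  intro ζ hζ φ hφ
  have hzero : ∀ g, ζ g 0 = 0 := fun g => class_zero hcomm h𝔣1 h𝔣0 hA.mul hray hr hζ g
  have hmain : ∀ g : H ≃ₐ[K] H, (deriv (ζ g) 0).im = 0 ∧
      (fun N : ℕ => (classComb 𝔣 A (ρ N) g : ℝ) - (deriv (ζ g) 0).re) =O[atTop]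
        (fun N : ℕ => 1 / (N : ℝ)) := fun g =>
    class_law h𝔣1 hζ (lim_deriv (hζ.analytic g 0 (by norm_num)) (hzero g)) hγ (Ck_one_ne γ) hρ
  have hlim : ∀ g, Tendsto (fun N : ℕ => (classComb 𝔣 A (ρ N) g : ℝ)) atTop
      (𝓝 (deriv (ζ g) 0).re) := fun g => tendsto_of_law (hmain g).2
  have hre : ∀ g, deriv (ζ g) 0 = ((deriv (ζ g) 0).re : ℂ) := by
    intro g
    apply Complex.ext <;> simp [(hmain g).1]
  have hS : ∀ u : H, StarkIdentities φ ζ u ↔ ∀ g, logVec φ u g = (deriv (ζ g) 0).re := by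
    intro u
    refine forall_congr' fun g => ?_
    constructor
    · intro h
      rw [h, Complex.ofReal_re]
    · intro h
      rw [h]
      exact hre g
  have hnear := fun (P : H → Prop) (hP : ∀ u, P u → IsCircleUnit K u) => near_iff (P := P)
    (lam := fun g u => logVec φ u g) (θ := fun g => (deriv (ζ g) 0).re)
    (fun u hu => integral (hP u hu))
    (fun B => by
      obtain ⟨B', hB'⟩ := bounded hK hφ B
      exact ⟨B', fun u hu => hB' u (hP u hu)⟩)
    (x := fun N g => (classComb 𝔣 A (ρ N) g : ℝ)) hlim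
  have h3 : (∃ u : H, IsCircleUnit K u ∧ StarkIdentities φ ζ u ∧ AbelianRoot K u) ↔
      ComesClose 𝔣 A ρ φ fun u => IsCircleUnit K u ∧ AbelianRoot K u := by
    unfold ComesClose Close
    rw [← hnear (fun u : H => IsCircleUnit K u ∧ AbelianRoot K u) (fun u hu => hu.1)]
    constructor
    · rintro ⟨u, hu1, hu2, hu3⟩
      exact ⟨u, ⟨hu1, hu3⟩, (hS u).1 hu2⟩
    · rintro ⟨u, ⟨hu1, hu3⟩, hu2⟩
      exact ⟨u, hu1, (hS u).2 hu2, hu3⟩
  refine ⟨fun g => ⟨hzero g, hmain g⟩, fun u => ?_, h3, ?_, ?_⟩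
  · rw [hS u]
    refine forall_congr' fun g => ?_
    constructor
    · intro h
      rw [h]
      exact hlim g
    · intro h
      exact tendsto_nhds_unique h (hlim g)
  · unfold ComesClose Close
    rw [← hnear (IsCircleUnit K) (fun u hu => hu)]
    constructor
    · rintro ⟨u, hu1, hu2⟩
      exact ⟨u, hu1, (hS u).1 hu2⟩
    · rintro ⟨u, hu1, hu2⟩
      exact ⟨u, hu1, (hS u).2 hu2⟩
  · by_cases hex : ∃ u : H, IsCircleUnit K u ∧ StarkIdentities φ ζ u ∧ AbelianRoot K u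
    · left
      obtain ⟨u, hu1, hu2, hu3⟩ := hex
      refine ⟨u, ⟨hu1, hu3⟩, fun g => ?_⟩
      rw [(hS u).1 hu2 g]
      exact (hmain g).2
    · right
      rw [h3] at hex
      unfold ComesClose at hex
      push Not at hex
      obtain ⟨δ, hδ, N₀, hN₀⟩ := hex
      exact ⟨δ, hδ, N₀, fun N hN => hN₀ N hN⟩

end Pool.Agent.Results.MP_29cb78_nt.LatticeApproximations
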