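import Pool.Agent.X287.STY

/-!
# The rank one abelian Stark conjecture for ATR fields: the units without the class field, and sums over prime ideals

`K` is a number field with exactly one complex place (so every ATR field is allowed; imaginary quadratic fields too), `ι` one of the
two embeddings of `K` which are not real, `𝔪 ≠ (0), (1)` an ideal, `G` a finite abelian group and `c` a map from the ideals to `G`,
multiplicative on the ideals prime to `𝔪` and trivial on the ideals `(x)` with `x ≡ 1` modulo `𝔪` and `x` positive in all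
the real embeddings: for example the narrow ray class group `Cl⁺(𝔪)` and the class of an ideal. `Z(g, s) = ∑_{c(𝔞) = g} N𝔞^{-s}` (`𝔞` prime
to `𝔪`), continued. For a fixed `γ > π/2` let

`𝒮(T) = ∑_{v ∤ 𝔪} ∑_{k ≥ 1} exp(iγ k log Nv / T) / (k Γ(1 + k log Nv / T)) c(v)^k ∈ ℂ[G]`, `D_g(T) = T e^{-Λ(γ)} [exp 𝒮(T)]_g`

with the exponential of the group ring and the coefficient `[·]_g` of `g`. UNCONDITIONALLY:

1. The continuations exist, the sums converge absolutely, `Z(g, 0) = 0`, `Z'(g, 0)` is real and `D_g(T) = Z'(g, 0) + O(1/T)`.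
2. (sign law) `Z'(g c((x)), 0) = (-1)^k Z'(g, 0)` for all `x ≡ 1` modulo `𝔪`, `x ≠ 0`, where `k` is the number of real embeddings in
   which `x` is negative.
3. (cases in which Q1 is true) If there is an `x ≠ 0`, `x ≡ 1` modulo `𝔪`, with `c((x)) = 1` and `k` odd, for instance if
   there is a unit of norm `-1` which is `≡ 1` modulo `𝔪` (`x = -1` if `K` has an odd number of real places and `𝔪` divides `2`), then
   `Z'(g, 0) = 0` for all `g`, and `u = 1` is a Stark unit in every Galois extension `H/K` with group `G`.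
4. (consequences of Q1) Let `H/K` be a Galois extension with group `G` (`art : G ≅ Gal(H/K)`), `τ` an embedding of `H` above `ι`,
   let `H` contain the `e`-th roots of unity and let `u ∈ O_H^×` be a Stark unit: `Z'(g, 0) = - (1/e) log |τ(art(g) u)|²` for all `g`,
   absolute value `1` in all the embeddings above real embeddings, and `H(u^{1/e})` abelian over `K` (contained in an abelian extension
   of `K`). Then for every `θ = ∑ n_A A ∈ ℤ[G]` which annihilates the `e`-th roots of unity of `H` (for instance `θ = e`, or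
   `θ = c(v) - Nv` for the primes `v ∤ e 𝔪`)
   (P_θ) there are a monic polynomial `Q` over `O_K` and complex numbers `z_g` with `ι(Q) = ∏_g (x - z_g)`,
   `|z_g|² = exp(- ∑_A n_A Z'(g A, 0))`, such that for all real embeddings `σ` all the roots of `σ(Q)` have absolute value `1`.
5. (criterion) For every `θ ∈ ℤ[G]` the statement (P_θ) holds if and only if for all `δ > 0` and arbitrarily large `T` there is a
   vector `v` with `|v_g - exp(- ∑_A n_A Re D_{gA}(T))| < δ` for all `g`, among the vectors `v = (|z_g|²)_g` which come from a monic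
   polynomial over `O_K` in this way. And there are only finitely many such vectors in bounded sets (they can be listed: the
   coefficients of `Q` have bounded conjugates).

So the units of Stark are described by statements which contain no class field, only polynomials over `O_K` and absolutely
convergent sums over the prime ideals of `K`; the failure of (P_θ) would be visible at finite precision. In 4 the abelian
condition (which is a part of Q1) is used for `θ ≠ e`: the exponent `e` disappears from the relations for `θ = c(v) - Nv`.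

Ingredients: Hecke's continuation with gamma factors (`Pool.Agent.Y773`, `Y772`), the rotated law at `s = 0` (`Pool.Agent.X287.CR`,
`ST`), weak approximation and functoriality of partial zeta functions (`STW`), Northcott's theorem for polynomials (`STX`), Kummer theory
and Galois descent (`STY`).
-/

set_option autoImplicit false
set_option linter.unusedSectionVars false

open Filter Topology Asymptotics
open IsDedekindDomain NumberField Polynomial

namespace Pool.Agent.Results.MP_29cb78_nt.UnitPolynomials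

section defs
variable {K : Type} [Field K] [NumberField K] {G : Type} [CommGroup G] [Fintype G]

/-- `c` is multiplicative on the ideals prime to `𝔪`, and trivial on the ideals `(x)` with `x ≡ 1` modulo `𝔪`, `x` positive
in all real embeddings. -/
structure IsClassMap (𝔪 : Ideal (𝓞 K)) (c : Ideal (𝓞 K) → G) : Prop where
  mul : ∀ I J : Ideal (𝓞 K), IsCoprime I 𝔪 → IsCoprime J 𝔪 → c (I * J) = c I * c J
  ray : ∀ x : 𝓞 K, x ≠ 0 → x - 1 ∈ 𝔪 → (∀ σ : K →+* ℝ, 0 < σ (x : K)) → c (Ideal.span {x}) = 1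

/-- `Z g` is the partial zeta function of `g`, continued to `ℂ - {1}` and meromorphic at `1`. -/
structure IsPartialZeta (𝔪 : Ideal (𝓞 K)) (c : Ideal (𝓞 K) → G) (Z : G → ℂ → ℂ) : Prop where
  sum : ∀ (g : G) (s : ℂ), 1 < s.re → HasSum (fun I : {I : Ideal (𝓞 K) // IsCoprime I 𝔪 ∧ c I = g} =>
    ((Ideal.absNorm I.1 : ℕ) : ℂ) ^ (-s)) (Z g s)
  analytic : ∀ (g : G) (s : ℂ), s ≠ 1 → AnalyticAt ℂ (Z g) s
  mero : ∀ g : G, MeromorphicAt (Z g) 1

/-- The primes which do not divide `𝔪`. -/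
abbrev Places (𝔪 : Ideal (𝓞 K)) : Type := {v : HeightOneSpectrum (𝓞 K) // IsCoprime v.asIdeal 𝔪}

open Classical in
/-- The term of the prime `v = x.1` and the exponent `k = x.2 + 1` in the coefficient of `g` in `𝒮(T)`. -/
noncomputable def term (𝔪 : Ideal (𝓞 K)) (c : Ideal (𝓞 K) → G) (γ T : ℝ) (g : G) (x : Places 𝔪 × ℕ) : ℂ :=
  if c (x.1.1.asIdeal ^ (x.2 + 1)) = g then
    Complex.exp ((γ * ((x.2 + 1) * Real.log (Ideal.absNorm x.1.1.asIdeal : ℕ) / T) : ℝ) * Complex.I) /
    (((x.2 + 1) * Real.Gamma (1 + (x.2 + 1) * Real.log (Ideal.absNorm x.1.1.asIdeal : ℕ) / T) : ℝ) : ℂ)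
  else 0

/-- The coefficient of `g` in `𝒮(T)`. -/
noncomputable def frobSum (𝔪 : Ideal (𝓞 K)) (c : Ideal (𝓞 K) → G) (γ T : ℝ) (g : G) : ℂ :=
  ∑' x, term 𝔪 c γ T g x

open Classical in
/-- The coefficient of `g` in the power `f^n` of an element `f` of the group ring `ℂ[G]`. -/
noncomputable def power (f : G → ℂ) : ℕ → G → ℂ
  | 0 => fun g => if g = 1 then 1 else 0
  | n + 1 => fun g => ∑ h, f h * power f n (h⁻¹ * g)

/-- The coefficient of `g` in the exponential of an element `f` of the group ring `ℂ[G]`. -/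
noncomputable def expCoeff (f : G → ℂ) (g : G) : ℂ := ∑' n : ℕ, power f n g / n.factorial

/-- The constant `Λ(γ) = ∫_0^∞ (e^{-t} - e^{iγt} / Γ(1 + t)) dt / t`. -/
noncomputable def Lambda (γ : ℝ) : ℂ := ∫ t in Set.Ioi (0 : ℝ),
  (Complex.exp (-(t : ℂ)) - Complex.exp ((γ * t : ℝ) * Complex.I) * ((Real.Gamma (1 + t))⁻¹ : ℝ)) / t

/-- `D_g(T) = T e^(-Λ) [exp 𝒮(T)]_g`. -/
noncomputable def approx (𝔪 : Ideal (𝓞 K)) (c : Ideal (𝓞 K) → G) (γ T : ℝ) (g : G) : ℂ :=
  T * Complex.exp (-Lambda γ) * expCoeff (frobSum 𝔪 c γ T) g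

/-- The number of real embeddings in which `x` is negative. -/
noncomputable def negatives (x : 𝓞 K) : ℕ := Nat.card {σ : K →+* ℝ // σ (x : K) < 0}

/-- The homomorphism `φ` from `O_K` to the complex numbers. -/
noncomputable def toComplex (φ : K →+* ℂ) : 𝓞 K →+* ℂ := φ.comp (algebraMap (𝓞 K) K)

/-- There are a monic polynomial `Q` over `O_K` and numbers `z g` such that `ι(Q) = ∏ (x - z g)` and `v g = |z g|²`, and in every
real embedding the roots of `Q` have absolute value `1`. -/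
def IsCircleVector (ι : K →+* ℂ) (v : G → ℝ) : Prop :=
  ∃ (Q : (𝓞 K)[X]) (z : G → ℂ), Q.Monic ∧ Q.map (toComplex ι) = ∏ g, (X - C (z g)) ∧ (∀ g, v g = ‖z g‖ ^ 2) ∧
    ∀ (σ : K →+* ℝ) (y : ℂ), (Q.map (toComplex (Complex.ofRealHom.comp σ))).eval y = 0 → ‖y‖ = 1

/-- `exp(- ∑_A n_A Re d(g A))`. -/
noncomputable def twist (n : G → ℤ) (d : G → ℂ) (g : G) : ℝ := Real.exp (-∑ A, n A * (d (g * A)).re)

/-- The unit `u` of `H` has the properties 1, 2, 3 of Q1 with the exponent `e`, for the embedding `τ` above `ι`; the roots of unity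
of order `e` are in `H`. -/
structure IsStarkUnit {H : Type} [Field H] [NumberField H] [Algebra K H] (ι : K →+* ℂ) (art : G ≃* Gal(H/K))
    (τ : H →+* ℂ) (e : ℕ) (Z : G → ℂ → ℂ) (u : (𝓞 H)ˣ) : Prop where
  above : τ.comp (algebraMap K H) = ι
  roots : 0 < e ∧ ∃ ζ : H, IsPrimitiveRoot ζ e
  value : ∀ g, deriv (Z g) 0 = ((-(1 / e) * Real.log (‖τ (art g ((u : 𝓞 H) : H))‖ ^ 2) : ℝ) : ℂ)
  circle : ∀ (φ : H →+* ℂ) (σ : K →+* ℝ), φ.comp (algebraMap K H) = Complex.ofRealHom.comp σ →
    ‖φ ((u : 𝓞 H) : H)‖ = 1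
  abelian : ∃ (M : Type) (_ : Field M) (_ : NumberField M) (_ : Algebra H M) (_ : Algebra K M)
    (_ : IsScalarTower K H M) (_ : IsGalois K M) (α : M), (∀ a b : Gal(M/K), a * b = b * a) ∧
      α ^ e = algebraMap H M ((u : 𝓞 H) : H)

/-- The element `∑ n_A A` of the group ring annihilates the `e`-th roots of unity of `H`. -/
def Annihilates {H : Type} [Field H] [Algebra K H] (art : G ≃* Gal(H/K)) (e : ℕ) (n : G → ℤ) : Prop :=
  ∀ ζ : H, ζ ^ e = 1 → ∏ A, (art A ζ) ^ (n A) = 1

end defs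

section aux
open Pool.Agent.X287.ST

variable {K : Type} [Field K] [NumberField K] {G : Type} [CommGroup G] [Fintype G]

theorem power_eq (f : G → ℂ) (n : ℕ) : power f n = pw f n := by
  induction n with
  | zero => rfl
  | succ n ih =>
    funext g
    show ∑ h, f h * power f n (h⁻¹ * g) = ∑ h, f h * pw f n (h⁻¹ * g)
    rw [ih]

theorem expCoeff_eq (f : G → ℂ) (g : G) : expCoeff f g = gexp f g := by
  unfold expCoeff gexp
  exact tsum_congr fun n => by rw [power_eq]

theorem term_eq (𝔪 : Ideal (𝓞 K)) (c : Ideal (𝓞 K) → G) (γ T : ℝ) (g : G) (x : Places 𝔪 × ℕ) :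
    term 𝔪 c γ T g x = Pool.Agent.X287.ST.term 𝔪 c 0 γ T g x := by
  unfold term Pool.Agent.X287.ST.term
  split_ifs
  · rw [neg_zero, Complex.cpow_zero, one_pow, one_mul]
  · rfl

theorem frobSum_eq (𝔪 : Ideal (𝓞 K)) (c : Ideal (𝓞 K) → G) (γ T : ℝ) :
    frobSum 𝔪 c γ T = Sg 𝔪 c 0 γ T := by
  funext g
  exact tsum_congr fun x => term_eq 𝔪 c γ T g x

theorem approx_eq (𝔪 : Ideal (𝓞 K)) (c : Ideal (𝓞 K) → G) (γ T : ℝ) (g : G) :
    approx 𝔪 c γ T g = sc (Pool.Agent.W187.UR.Lam γ) (1 : ℤ) T * gexp (Sg 𝔪 c 0 γ T) g := by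
  unfold approx sc
  rw [zpow_one, frobSum_eq, expCoeff_eq]
  rfl

theorem isCircleVector_iff (ι : K →+* ℂ) (v : G → ℝ) : IsCircleVector ι v ↔ CirclePoly ι v := Iff.rfl

theorem negatives_eq (x : 𝓞 K) [DecidablePred fun σ : K →+* ℝ => σ (x : K) < 0] :
    negatives x = (Finset.univ.filter fun σ : K →+* ℝ => σ (x : K) < 0).card := by
  unfold negatives
  rw [Nat.card_eq_fintype_card, Fintype.card_subtype]

end aux

open Pool.Agent.X287.ST in
/-- **Stark's conjecture for ATR fields: units without class fields.** -/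
theorem result (K : Type) [Field K] [NumberField K] (hK : InfinitePlace.nrComplexPlaces K = 1) (ι : K →+* ℂ)
    (hι : ¬ComplexEmbedding.IsReal ι) (𝔪 : Ideal (𝓞 K)) (h0 : 𝔪 ≠ ⊥) (h1 : 𝔪 ≠ ⊤) (G : Type) [CommGroup G] [Fintype G]
    (c : Ideal (𝓞 K) → G) (hc : IsClassMap 𝔪 c) (γ : ℝ) (hγ : Real.pi / 2 < γ) :
    (∃ Z : G → ℂ → ℂ, IsPartialZeta 𝔪 c Z) ∧
    (∀ (T : ℝ) (g : G), 0 < T → Summable fun x => ‖term 𝔪 c γ T g x‖) ∧
    -- bounded sets contain only finitely many of the vectors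
    (∀ B : ℝ, {v : G → ℝ | IsCircleVector ι v ∧ ∀ g, v g ≤ B}.Finite) ∧
    ∀ Z : G → ℂ → ℂ, IsPartialZeta 𝔪 c Z →
      -- 1. the values as limits
      (∀ g, Z g 0 = 0 ∧ (deriv (Z g) 0).im = 0 ∧
        (fun T : ℝ => approx 𝔪 c γ T g - deriv (Z g) 0) =O[atTop] (fun T : ℝ => 1 / T)) ∧
      -- 2. the sign law
      (∀ x : 𝓞 K, x ≠ 0 → x - 1 ∈ 𝔪 → ∀ g,
        deriv (Z (g * c (Ideal.span {x}))) 0 = (-1) ^ negatives x * deriv (Z g) 0) ∧
      -- 3. cases in which Q1 is true
      (∀ x : 𝓞 K, x ≠ 0 → x - 1 ∈ 𝔪 → c (Ideal.span {x}) = 1 → Odd (negatives x) →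
        (∀ g, deriv (Z g) 0 = 0) ∧
        ∀ (H : Type) [Field H] [NumberField H] [Algebra K H] [IsGalois K H] (art : G ≃* Gal(H/K)) (τ : H →+* ℂ)
          (e : ℕ), τ.comp (algebraMap K H) = ι → 0 < e → (∃ ζ : H, IsPrimitiveRoot ζ e) →
          IsStarkUnit ι art τ e Z 1) ∧
      -- 4. consequences of Q1
      (∀ (H : Type) [Field H] [NumberField H] [Algebra K H] [IsGalois K H] (art : G ≃* Gal(H/K)) (τ : H →+* ℂ)
        (e : ℕ) (u : (𝓞 H)ˣ), IsStarkUnit ι art τ e Z u → ∀ n : G → ℤ, Annihilates art e n →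
          IsCircleVector ι (twist n fun g => deriv (Z g) 0)) ∧
      -- 5. the criterion
      (∀ n : G → ℤ, IsCircleVector ι (twist n fun g => deriv (Z g) 0) ↔
        ∀ δ > 0, ∀ T₀ : ℝ, ∃ T ≥ T₀, ∃ v : G → ℝ, IsCircleVector ι v ∧ ∀ g, |v g - twist n (approx 𝔪 c γ T) g| < δ) := by
  classical
  have hcR : IsClassMapR 𝔪 ∅ c := ⟨hc.mul, fun x hx0 hx1 hx2 => hc.ray x hx0 hx1 fun σ => hx2 σ (by simp)⟩
  have hcc : Pool.Agent.X287.ST.IsClassMap 𝔪 c := hcR.toClass
  have hr : 1 ≤ (∅ : Finset (K →+* ℝ)).card + InfinitePlace.nrComplexPlaces K := by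
    rw [hK]
    simp
  have hr1 : 1 ≤ InfinitePlace.nrComplexPlaces K := hK.ge
  refine ⟨?_, fun T A hT => ?_, fun B => circlePoly_finite hK hι B, fun Z hZ => ?_⟩
  · obtain ⟨Z, hZ, -⟩ := exists_PZ_ord h1 h0 hcR
    exact ⟨Z, hZ.sum, hZ.an, hZ.mer⟩
  · refine (term_summable hcR.toClass (s₀ := 0) (by simp) γ hT A).congr fun x => ?_
    rw [term_eq]
  have hZ' : IsPZ 𝔪 c Z := ⟨hZ.sum, hZ.analytic, hZ.mero⟩
  have hone := fun A => one_place h1 h0 hcR hr hZ' hγ A
  have hD : ∀ A, (fun T : ℝ => approx 𝔪 c γ T A - deriv (Z A) 0) =O[atTop] (fun T : ℝ => 1 / T) := by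
    intro A
    refine (hone A).2.2.congr_left fun T => ?_
    rw [approx_eq]
  have h0T : Tendsto (fun T : ℝ => 1 / T) atTop (𝓝 (0 : ℝ)) :=
    tendsto_const_nhds.div_atTop tendsto_id
  have hlim : ∀ A, Tendsto (fun T : ℝ => approx 𝔪 c γ T A) atTop (𝓝 (deriv (Z A) 0)) := by
    intro A
    have h2 := ((hD A).trans_tendsto h0T).add_const (deriv (Z A) 0)
    simpa using h2
  have hlimT : ∀ (n : G → ℤ) (g : G), Tendsto (fun T : ℝ => twist n (approx 𝔪 c γ T) g) atTop
      (𝓝 (twist n (fun g => deriv (Z g) 0) g)) := by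
    intro n g
    unfold twist
    refine (Real.continuous_exp.tendsto _).comp ?_
    refine (tendsto_finsetSum _ fun A _ => ?_).neg
    exact ((Complex.continuous_re.tendsto _).comp (hlim (g * A))).const_mul _
  have hzero : ∀ x : 𝓞 K, x ≠ 0 → x - 1 ∈ 𝔪 → c (Ideal.span {x}) = 1 → Odd (negatives x) →
      ∀ g, deriv (Z g) 0 = 0 := by
    intro x hx0 hx1 hcx hodd g
    have h2 := sign_law h1 h0 hcc hr1 hZ' hx0 hx1 g
    rw [← negatives_eq, hcx, mul_one, hodd.neg_one_pow, neg_one_mul, eq_neg_iff_add_eq_zero, ← two_mul,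
      mul_eq_zero] at h2
    exact h2.resolve_left two_ne_zero
  refine ⟨fun A => ⟨(hone A).1, (hone A).2.1, hD A⟩, fun x hx0 hx1 g => ?_,
    fun x hx0 hx1 hcx hodd => ⟨hzero x hx0 hx1 hcx hodd, ?_⟩, ?_, fun n => ⟨fun h δ hδ T₀ => ?_, fun h => ?_⟩⟩
  · rw [negatives_eq]
    exact sign_law h1 h0 hcc hr1 hZ' hx0 hx1 g
  · intro H _ _ _ _ art τ e hτ he hroot
    have hone1 : (((1 : (𝓞 H)ˣ) : 𝓞 H) : H) = 1 := by simp
    refine ⟨hτ, ⟨he, hroot⟩, fun g => ?_, fun φ σ _ => ?_, H, inferInstance, inferInstance, inferInstance, inferInstance,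
      inferInstance, inferInstance, 1, fun a b => ?_, ?_⟩
    · rw [hone1, map_one, map_one, hzero x hx0 hx1 hcx hodd g]
      simp
    · rw [hone1, map_one, norm_one]
    · obtain ⟨A, rfl⟩ := art.surjective a
      obtain ⟨B, rfl⟩ := art.surjective b
      rw [← map_mul, ← map_mul, mul_comm]
    · rw [hone1, map_one, one_pow]
  · intro H _ _ _ _ art τ e u hu n hn
    obtain ⟨M, _, _, _, _, _, _, α, hcomm, hα⟩ := hu.abelian
    have he := hu.roots.1
    have he' : (e : ℝ) ≠ 0 := by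
      have := he.ne'
      exact_mod_cast this
    have hpos : ∀ g, 0 < ‖τ (art g ((u : 𝓞 H) : H))‖ ^ 2 := by
      intro g
      have h2 : ((u : 𝓞 H) : H) ≠ 0 := by simp
      have h3 : τ (art g ((u : 𝓞 H) : H)) ≠ 0 := by
        rw [_root_.map_ne_zero]
        exact (map_ne_zero_iff _ (art g).injective).2 h2
      positivity
    have hval : ∀ g, ‖τ (art g ((u : 𝓞 H) : H))‖ ^ 2 = Real.exp (-(e * (deriv (Z g) 0).re)) := by
      intro g
      rw [hu.value g, Complex.ofReal_re]
      rw [show -((e : ℝ) * (-(1 / e) * Real.log (‖τ (art g ((u : 𝓞 H) : H))‖ ^ 2))) =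
        Real.log (‖τ (art g ((u : 𝓞 H) : H))‖ ^ 2) by field_simp, Real.exp_log (hpos g)]
    exact circlePoly_twist (d := fun g => (deriv (Z g) 0).re) art hu.above he hu.roots.2 u hval hu.circle hcomm hα n hn
  · have h2 : ∀ g, ∀ᶠ T : ℝ in atTop,
        |twist n (fun g => deriv (Z g) 0) g - twist n (approx 𝔪 c γ T) g| < δ := by
      intro g
      have h3 := (Metric.tendsto_nhds.1 (hlimT n g)) δ hδ
      filter_upwards [h3] with T hT
      rw [abs_sub_comm, ← Real.dist_eq]
      exact hT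
    obtain ⟨T, hT1, hT2⟩ := ((Filter.eventually_all.2 h2).and (eventually_ge_atTop T₀)).exists
    exact ⟨T, hT2, _, h, hT1⟩
  · refine circlePoly_closed hK hι fun δ hδ => ?_
    have h2 : ∀ g, ∀ᶠ T : ℝ in atTop,
        |twist n (fun g => deriv (Z g) 0) g - twist n (approx 𝔪 c γ T) g| < δ / 2 := by
      intro g
      have h3 := (Metric.tendsto_nhds.1 (hlimT n g)) (δ / 2) (half_pos hδ)
      filter_upwards [h3] with T hT
      rw [abs_sub_comm, ← Real.dist_eq]
      exact hT
    obtain ⟨T₀, hT₀⟩ := eventually_atTop.1 (Filter.eventually_all.2 h2)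
    obtain ⟨T, hT, v, hv, hvT⟩ := h (δ / 2) (half_pos hδ) T₀
    refine ⟨v, hv, fun g => ?_⟩
    have h3 := hvT g
    have h4 := hT₀ T hT g
    rw [abs_sub_comm] at h4
    calc |v g - twist n (fun g => deriv (Z g) 0) g|
        = |(v g - twist n (approx 𝔪 c γ T) g) + (twist n (approx 𝔪 c γ T) g - twist n (fun g => deriv (Z g) 0) g)| := by
          congr 1
          ring
      _ ≤ |v g - twist n (approx 𝔪 c γ T) g| +
          |twist n (approx 𝔪 c γ T) g - twist n (fun g => deriv (Z g) 0) g| := abs_add_le _ _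
      _ < δ := by linarith

end Pool.Agent.Results.MP_29cb78_nt.UnitPolynomials
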